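import Mathlib

/-!
# There is no uniform bound on the number of irreducible components of a numerical semigroup

Take `n + 1` numbers in a short interval `[u, M]` such that `b - a` divides `a` for all `a < b` in
the set, and let `S = {0} ∪ (M, ∞)`. An irreducible numerical semigroup `T ⊇ S` with Frobenius
number `f` that omits `a < b` contains `f - a` and `f - b`; as `b - a` divides `a` and `a` is
large, `f` is a sum of numbers `f - a` and `f - b`, a contradiction. So every irreducible
oversemigroup of `S` omits at most one number of the set.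
-/

set_option autoImplicit false

namespace Pool.Agent.Results.MP_b58a5b_nt.NoUniformBound

/-- Numerical semigroups: sets of natural numbers that contain `0`, are closed under addition and
have finite complement. -/
def IsNumericalSemigroup (S : Set ℕ) : Prop :=
  0 ∈ S ∧ (∀ a ∈ S, ∀ b ∈ S, a + b ∈ S) ∧ Sᶜ.Finite

/-- A numerical semigroup is irreducible if it is not the intersection of two numerical semigroups
that contain it properly. -/
def IsIrreducible (S : Set ℕ) : Prop :=
  IsNumericalSemigroup S ∧ ¬ ∃ S₁ S₂ : Set ℕ, IsNumericalSemigroup S₁ ∧ IsNumericalSemigroup S₂ ∧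
    S ⊂ S₁ ∧ S ⊂ S₂ ∧ S = S₁ ∩ S₂

lemma mul_mem {T : Set ℕ} (hT : IsNumericalSemigroup T) {d : ℕ} (hd : d ∈ T) (u : ℕ) :
    u * d ∈ T := by
  induction u with
  | zero => simpa using hT.1
  | succ u ih => rw [Nat.succ_mul]; exact hT.2.1 _ ih _ hd

/-- Adding a gap `h` to a numerical semigroup. -/
lemma insert_sg {T : Set ℕ} (hT : IsNumericalSemigroup T) {h : ℕ} (h1 : ∀ s ∈ T, s ≠ 0 → h + s ∈ T)
    (h2 : h + h ∈ T) : IsNumericalSemigroup (insert h T) := by
  refine ⟨Or.inr hT.1, ?_, hT.2.2.subset ?_⟩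
  · rintro a (rfl | ha) b (rfl | hb)
    · exact Or.inr h2
    · by_cases hb0 : b = 0
      · subst hb0; exact Or.inl rfl
      · exact Or.inr (h1 b hb hb0)
    · by_cases ha0 : a = 0
      · subst ha0; exact Or.inl (by simp)
      · exact Or.inr (by rw [add_comm]; exact h1 a ha ha0)
    · exact Or.inr (hT.2.1 _ ha _ hb)
  · exact Set.compl_subset_compl.mpr (Set.subset_insert _ _)

/-- In an irreducible numerical semigroup `T` with largest gap `f`: if `x` is a gap with
`f < 2 x`, then `f - x ∈ T`. -/
lemma sub_mem {T : Set ℕ} (hT : IsIrreducible T) {f : ℕ} (hf : f ∉ T) (hmax : ∀ n, f < n → n ∈ T)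
    {x : ℕ} (hx : x ∉ T) (hfx : f < 2 * x) : f - x ∈ T := by
  by_contra hcon
  -- the largest bad gap
  obtain ⟨h, ⟨hh1, hh2, hh3⟩, hhmax⟩ : ∃ h, (h ∉ T ∧ f < 2 * h ∧ f - h ∉ T) ∧
      ∀ y, h < y → ¬ (y ∉ T ∧ f < 2 * y ∧ f - y ∉ T) := by
    classical
    have hb : ∀ y, (y ∉ T ∧ f < 2 * y ∧ f - y ∉ T) → y ≤ f := by
      intro y hy
      by_contra hlt
      exact hy.1 (hmax y (by omega))
    have hne : ∃ y, (y ∉ T ∧ f < 2 * y ∧ f - y ∉ T) := ⟨x, hx, hfx, hcon⟩
    refine ⟨Nat.findGreatest (fun y => y ∉ T ∧ f < 2 * y ∧ f - y ∉ T) f, ?_, ?_⟩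
    · exact Nat.findGreatest_spec (P := fun y => y ∉ T ∧ f < 2 * y ∧ f - y ∉ T)
        (hb x ⟨hx, hfx, hcon⟩) ⟨hx, hfx, hcon⟩
    · intro y hy hP
      exact absurd (Nat.le_findGreatest (P := fun y => y ∉ T ∧ f < 2 * y ∧ f - y ∉ T) (hb y hP) hP)
        (by omega)
  have hhf : h ≤ f := by
    by_contra hlt
    exact hh1 (hmax h (by omega))
  have hne : h ≠ f := by
    rintro rfl
    apply hh3
    rw [Nat.sub_self]; exact hT.1.1
  have hins : IsNumericalSemigroup (insert h T) := by
    apply insert_sg hT.1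
    · intro s hs hs0
      by_contra hmem
      have h1 := hhmax (h + s) (by omega)
      have h2 : h + s ≤ f := by
        by_contra hlt
        exact hmem (hmax _ (by omega))
      have h3 : f - (h + s) ∈ T := by
        by_contra h4
        exact h1 ⟨hmem, by omega, h4⟩
      apply hh3
      have h5 : f - h = (f - (h + s)) + s := by omega
      rw [h5]
      exact hT.1.2.1 _ h3 _ hs
    · exact hmax _ (by omega)
  have hinsf : IsNumericalSemigroup (insert f T) := by
    apply insert_sg hT.1
    · intro s _ hs0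
      exact hmax _ (by omega)
    · apply hmax
      have : f ≠ 0 := by rintro rfl; exact hf hT.1.1
      omega
  apply hT.2
  refine ⟨insert h T, insert f T, hins, hinsf, Set.ssubset_insert hh1, Set.ssubset_insert hf, ?_⟩
  ext y
  simp only [Set.mem_inter_iff, Set.mem_insert_iff]
  constructor
  · intro hy; exact ⟨Or.inr hy, Or.inr hy⟩
  · rintro ⟨h1 | h1, h2 | h2⟩
    · omega
    · exact h2
    · exact h1
    · exact h1

/-- Two gaps `a < b` with `b - a ∣ a`, both close to `f` and `a` large: impossible. -/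
lemma not_both {T : Set ℕ} (hT : IsIrreducible T) {f : ℕ} (hf : f ∉ T) (hmax : ∀ n, f < n → n ∈ T)
    {a b w : ℕ} (hab : a < b) (hdvd : b - a ∣ a) (ha : a ∉ T) (hb : b ∉ T) (hfw : f ≤ a + w)
    (hw : w * w ≤ a) (hwa : w < a) : False := by
  have hbf : b ≤ f := by
    by_contra hlt
    exact hb (hmax b (by omega))
  have h1 : f - a ∈ T := sub_mem hT hf hmax ha (by omega)
  have h2 : f - b ∈ T := sub_mem hT hf hmax hb (by omega)
  obtain ⟨q, hq⟩ := hdvd
  obtain ⟨δ, hδ⟩ : ∃ δ, δ = b - a := ⟨_, rfl⟩
  obtain ⟨d, hd⟩ : ∃ d, d = f - b := ⟨_, rfl⟩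
  have hdδ : f - a = d + δ := by omega
  rw [← hδ] at hq
  rw [hdδ] at h1
  rw [← hd] at h2
  have hδ0 : 0 < δ := by omega
  have hdw : d + δ ≤ w := by omega
  have hf' : f = a + (d + δ) := by omega
  -- `t = ⌈q / (d + δ)⌉`
  obtain ⟨t, ht1, ht2⟩ : ∃ t, q ≤ (d + δ) * t ∧ (d + δ) * t < q + (d + δ) := by
    refine ⟨(q + (d + δ) - 1) / (d + δ), ?_, ?_⟩
    · have := Nat.lt_mul_div_succ (q + (d + δ) - 1) (show 0 < d + δ by omega)
      have h3 : (d + δ) * ((q + (d + δ) - 1) / (d + δ) + 1) =
        (d + δ) * ((q + (d + δ) - 1) / (d + δ)) + (d + δ) := by ring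
      omega
    · have := Nat.mul_div_le (q + (d + δ) - 1) (d + δ)
      omega
  have hv : d * t ≤ q + 1 := by
    have e1 : (d + δ) * (d * t) ≤ d * (q + (d + δ)) := by
      calc (d + δ) * (d * t) = d * ((d + δ) * t) := by ring
        _ ≤ d * (q + (d + δ)) := Nat.mul_le_mul_left _ ht2.le
    have e2 : d * (q + (d + δ)) ≤ (d + δ) * (q + 1) := by
      have e3 : d * (d + δ) ≤ δ * q := by
        rw [← hq]
        refine le_trans ?_ hw
        exact Nat.mul_le_mul (by omega) hdw
      calc d * (q + (d + δ)) = d * q + d * (d + δ) := by ring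
        _ ≤ d * q + δ * q := Nat.add_le_add_left e3 _
        _ ≤ (d + δ) * (q + 1) := by ring_nf; omega
    exact Nat.le_of_mul_le_mul_left (e1.trans e2) (show 0 < d + δ by omega)
  apply hf
  obtain ⟨v, hv'⟩ : ∃ v, v + d * t = q + 1 := ⟨q + 1 - d * t, by omega⟩
  obtain ⟨u, hu'⟩ : ∃ u, u + q = (d + δ) * t := ⟨(d + δ) * t - q, by omega⟩
  have hfe : f = u * d + v * (d + δ) := by
    have e1 : (v : ℤ) = q + 1 - d * t := by
      have : ((v + d * t : ℕ) : ℤ) = ((q + 1 : ℕ) : ℤ) := by rw [hv']
      push_cast at this; linarith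
    have e2 : (u : ℤ) = (d + δ) * t - q := by
      have : ((u + q : ℕ) : ℤ) = (((d + δ) * t : ℕ) : ℤ) := by rw [hu']
      push_cast at this; linarith
    have e3 : (f : ℤ) = δ * q + (d + δ) := by
      rw [hf', hq]; push_cast; ring
    have : (f : ℤ) = u * d + v * (d + δ) := by
      rw [e1, e2, e3]; ring
    exact_mod_cast this
  rw [hfe]
  exact hT.1.2.1 _ (mul_mem hT.1 h2 u) _ (mul_mem hT.1 h1 v)

/-- Sets in which all differences divide the elements. -/
lemma exists_set (n : ℕ) : ∃ A : Finset ℕ, A.card = n ∧ (∀ a ∈ A, 0 < a) ∧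
    ∀ a ∈ A, ∀ b ∈ A, a < b → b - a ∣ a := by
  classical
  induction n with
  | zero => exact ⟨∅, rfl, by simp, by simp⟩
  | succ n ih =>
    obtain ⟨A, hcard, hpos, hdiv⟩ := ih
    set P : ℕ := (∏ a ∈ A, a) * ∏ p ∈ (A ×ˢ A).filter (fun p => p.1 < p.2), (p.2 - p.1) with hP
    have hP0 : 0 < P := by
      apply Nat.mul_pos
      · exact Finset.prod_pos hpos
      · apply Finset.prod_pos
        intro p hp
        have := (Finset.mem_filter.1 hp).2
        omega
    have h1 : ∀ a ∈ A, a ∣ P := fun a ha => Dvd.dvd.mul_right (Finset.dvd_prod_of_mem _ ha) _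
    have h2 : ∀ a ∈ A, ∀ b ∈ A, a < b → b - a ∣ P := by
      intro a ha b hb hab
      apply Dvd.dvd.mul_left
      exact Finset.dvd_prod_of_mem (fun p : ℕ × ℕ => p.2 - p.1)
        (Finset.mem_filter.2 ⟨Finset.mem_product.2 ⟨ha, hb⟩, hab⟩ :
          (a, b) ∈ (A ×ˢ A).filter (fun p => p.1 < p.2))
    refine ⟨insert P (A.image (fun a => P + a)), ?_, ?_, ?_⟩
    · rw [Finset.card_insert_of_notMem, Finset.card_image_of_injective _ (add_right_injective P),
        hcard]
      intro hmem
      obtain ⟨a, ha, hPa⟩ := Finset.mem_image.1 hmem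
      have := hpos a ha
      omega
    · intro a ha
      rcases Finset.mem_insert.1 ha with rfl | ha
      · exact hP0
      · obtain ⟨c, hc, rfl⟩ := Finset.mem_image.1 ha
        omega
    · intro a ha b hb hab
      rcases Finset.mem_insert.1 ha with rfl | ha
      · rcases Finset.mem_insert.1 hb with rfl | hb
        · omega
        · obtain ⟨c, hc, rfl⟩ := Finset.mem_image.1 hb
          rw [Nat.add_sub_cancel_left]
          exact h1 c hc
      · obtain ⟨c, hc, rfl⟩ := Finset.mem_image.1 ha
        rcases Finset.mem_insert.1 hb with rfl | hb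
        · omega
        · obtain ⟨e, he, rfl⟩ := Finset.mem_image.1 hb
          have h3 : P + e - (P + c) = e - c := by omega
          rw [h3]
          exact dvd_add (h2 c hc e he (by omega)) (hdiv c hc e he (by omega))

/-- For every `N` there is a numerical semigroup that is not an intersection of at most `N`
irreducible numerical semigroups. -/
theorem result : ∀ N : ℕ, ∃ S : Set ℕ, IsNumericalSemigroup S ∧
    ∀ k : ℕ, k ≤ N → ∀ T : Fin k → Set ℕ, (∀ i, IsIrreducible (T i)) → S ≠ ⋂ i, T i := by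
  classical
  intro N
  obtain ⟨A, hcard, hpos, hdiv⟩ := exists_set (N + 1)
  -- all elements are at most `w`
  set w : ℕ := A.sup id with hw
  have hAw : ∀ a ∈ A, a ≤ w := fun a ha => Finset.le_sup (f := id) ha
  set L : ℕ := ∏ p ∈ (A ×ˢ A).filter (fun p => p.1 < p.2), (p.2 - p.1) with hL
  have hL0 : 0 < L := by
    apply Finset.prod_pos
    intro p hp
    have := (Finset.mem_filter.1 hp).2
    omega
  have hLd : ∀ a ∈ A, ∀ b ∈ A, a < b → b - a ∣ L := by
    intro a ha b hb hab
    exact Finset.dvd_prod_of_mem (fun p : ℕ × ℕ => p.2 - p.1)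
      (Finset.mem_filter.2 ⟨Finset.mem_product.2 ⟨ha, hb⟩, hab⟩ :
        (a, b) ∈ (A ×ˢ A).filter (fun p => p.1 < p.2))
  -- the shift
  set s : ℕ := L * (w * w + w + 1) with hs
  have hsw : w * w + w + 1 ≤ s := Nat.le_mul_of_pos_left _ hL0
  refine ⟨{n | n = 0 ∨ s + w < n}, ⟨Or.inl rfl, ?_, ?_⟩, ?_⟩
  · rintro a (rfl | ha) b (rfl | hb)
    · exact Or.inl rfl
    · exact Or.inr (by omega)
    · exact Or.inr (by omega)
    · exact Or.inr (by omega)
  · refine (Set.finite_le_nat (s + w)).subset ?_
    intro n hn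
    simp only [Set.mem_compl_iff, Set.mem_ofPred_eq, not_or, not_lt] at hn ⊢
    exact hn.2
  · intro k hk T hT hST
    have hsub : ∀ i, ∀ n, s + w < n → n ∈ T i := by
      intro i n hn
      have h1 : n ∈ ⋂ i, T i := by rw [← hST]; exact Or.inr hn
      exact Set.mem_iInter.1 h1 i
    have hex : ∀ a ∈ A, ∃ i, s + a ∉ T i := by
      intro a ha
      by_contra hcon
      push Not at hcon
      have h1 : s + a ∈ ⋂ i, T i := Set.mem_iInter.2 hcon
      rw [← hST] at h1
      have := hAw a ha
      rcases h1 with h1 | h1 <;> omega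
    have : Nonempty (Fin k) := by
      obtain ⟨a, ha⟩ : A.Nonempty := Finset.card_pos.1 (by omega)
      obtain ⟨i, -⟩ := hex a ha
      exact ⟨i⟩
    choose! g hg using hex
    have hinj : Set.InjOn g A := by
      intro a ha b hb hgab
      by_contra hne
      -- wlog `a < b`
      have key : ∀ a ∈ A, ∀ b ∈ A, g a = g b → a < b → False := by
        intro a ha b hb hgab hab
        have h1 := hg a ha
        have h2 := hg b hb
        rw [← hgab] at h2
        -- the largest gap of `T (g a)`
        obtain ⟨f, hf, hmax⟩ : ∃ f, f ∉ T (g a) ∧ ∀ n, f < n → n ∈ T (g a) := by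
          have hb : ∀ y, y ∉ T (g a) → y ≤ s + w := by
            intro y hy
            by_contra hlt
            exact hy (hsub _ y (by omega))
          refine ⟨Nat.findGreatest (fun y => y ∉ T (g a)) (s + w), ?_, ?_⟩
          · exact Nat.findGreatest_spec (P := fun y => y ∉ T (g a)) (hb _ h1) h1
          · intro n hn
            by_contra hcon
            exact absurd (Nat.le_findGreatest (P := fun y => y ∉ T (g a)) (hb n hcon) hcon)
              (by omega)
        have hfle : f ≤ s + w := by
          by_contra hlt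
          exact hf (hsub _ f (by omega))
        have ha0 := hpos a ha
        refine not_both (hT (g a)) hf hmax (a := s + a) (b := s + b) (w := w) (by omega) ?_ h1 h2
          (by omega) (by omega) (by omega)
        have h3 : s + b - (s + a) = b - a := by omega
        rw [h3]
        exact dvd_add (Dvd.dvd.mul_right (hLd a ha b hb hab) _) (hdiv a ha b hb hab)
      rcases Nat.lt_or_gt_of_ne hne with h | h
      · exact key a ha b hb hgab h
      · exact key b hb a ha hgab.symm h
    have hle : A.card ≤ (Finset.univ : Finset (Fin k)).card :=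
      Finset.card_le_card_of_injOn g (fun _ _ => Finset.mem_univ _) hinj
    rw [hcard, Finset.card_univ, Fintype.card_fin] at hle
    omega

end Pool.Agent.Results.MP_b58a5b_nt.NoUniformBound
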